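import Pool.Agent.Q157.PH.Phase

/-!
Averaging over the choices of PhantomBreaker.
-/

namespace Pool.Agent.Q157.PH

open Finset

variable {V : Type} [Fintype V] [DecidableEq V]

set_option linter.unusedSectionVars false

/-- The choice functions. -/
def seeds : Finset (Finset V → V) :=
  Fintype.piFinset (fun R : Finset V => if R.Nonempty then R else univ)

lemma mem_seeds {c : Finset V → V} : c ∈ (seeds : Finset (Finset V → V)) ↔
    ∀ R : Finset V, R.Nonempty → c R ∈ R := by
  rw [seeds, Fintype.mem_piFinset]
  constructor
  · intro h R hR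
    have := h R
    rwa [if_pos hR] at this
  · intro h R
    by_cases hR : R.Nonempty
    · rw [if_pos hR]; exact h R hR
    · rw [if_neg hR]; exact Finset.mem_univ _

lemma seeds_nonempty [Nonempty V] : (seeds : Finset (Finset V → V)).Nonempty := by
  classical
  refine ⟨fun R => if h : R.Nonempty then h.choose else Classical.arbitrary V, ?_⟩
  rw [mem_seeds]
  intro R hR
  rw [dif_pos hR]
  exact hR.choose_spec

/-- The value at `R` is independent of a property which does not depend on it. -/
lemma card_fiber (Q : (Finset V → V) → Prop) [DecidablePred Q] (R : Finset V)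
    (hQ : ∀ c x, Q (Function.update c R x) ↔ Q c) {t : V} (ht : t ∈ R) :
    (seeds.filter (fun c => c R = t ∧ Q c)).card * R.card = (seeds.filter Q).card := by
  classical
  have hR : R.Nonempty := ⟨t, ht⟩
  have h1 : (seeds.filter Q).card =
      ∑ t' ∈ R, ((seeds.filter Q).filter (fun c => c R = t')).card := by
    apply Finset.card_eq_sum_card_fiberwise
    intro c hc
    have := (Finset.mem_filter.mp hc).1
    exact mem_seeds.mp this R hR
  have h2 : ∀ t' ∈ R, ((seeds.filter Q).filter (fun c => c R = t')).card =
      (seeds.filter (fun c => c R = t ∧ Q c)).card := by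
    intro t' ht'
    apply Finset.card_bij' (fun c _ => Function.update c R t) (fun c _ => Function.update c R t')
    case hi =>
      intro c hc
      rw [Finset.mem_filter, Finset.mem_filter] at hc
      rw [Finset.mem_filter]
      refine ⟨?_, by simp, (hQ _ _).mpr hc.1.2⟩
      rw [mem_seeds] at hc ⊢
      intro R' hR'
      by_cases h3 : R' = R
      · subst h3; simpa using ht
      · rw [Function.update_of_ne h3]; exact hc.1.1 R' hR'
    case hj =>
      intro c hc
      rw [Finset.mem_filter] at hc
      rw [Finset.mem_filter, Finset.mem_filter]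
      refine ⟨⟨?_, (hQ _ _).mpr hc.2.2⟩, by simp⟩
      rw [mem_seeds] at hc ⊢
      intro R' hR'
      by_cases h3 : R' = R
      · subst h3; simpa using ht'
      · rw [Function.update_of_ne h3]; exact hc.1 R' hR'
    case left_inv =>
      intro c hc
      rw [Finset.mem_filter] at hc
      rw [Function.update_idem, ← hc.2, Function.update_eq_self]
    case right_inv =>
      intro c hc
      rw [Finset.mem_filter] at hc
      rw [Function.update_idem, ← hc.2.1, Function.update_eq_self]
  rw [h1, Finset.sum_congr rfl h2, Finset.sum_const, smul_eq_mul, mul_comm]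

/-- What happens after `s` depends only on the choices out of subsets of the vertices not
tried. -/
lemma wins_independent {a b : ℕ} {σ : Hist V → Edge V} {c c' : Finset V → V}
    {s : Hist V × Finset (Edge V) × Option V} (hc : ∀ R ⊆ fresh s.1, c R = c' R)
    (hw : Wins a b σ c s) : Wins a b σ c' s := by
  have key : ∀ k, (turn a b σ c)^[k] s = (turn a b σ c')^[k] s ∧
      fresh ((turn a b σ c)^[k] s).1 ⊆ fresh s.1 := by
    intro k
    induction k with
    | zero => exact ⟨rfl, Finset.Subset.refl _⟩
    | succ k ih =>
      rw [Function.iterate_succ_apply', Function.iterate_succ_apply', ← ih.1]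
      have h1 : aim c ((turn a b σ c)^[k] s).1 ((turn a b σ c)^[k] s).2.2 =
          aim c' ((turn a b σ c)^[k] s).1 ((turn a b σ c)^[k] s).2.2 := by
        have h2 := hc _ ih.2
        rcases ((turn a b σ c)^[k] s).2.2 with _ | t
        · simp only [aim, h2]
        · simp only [aim, h2]
      constructor
      · simp only [turn, h1]
      · exact (fresh_attempts_subset _ _ _ _).trans ih.2
  obtain ⟨k, hk⟩ := hw
  refine ⟨k, ?_⟩
  rw [← (key k).1]
  exact hk

open Classical in
/-- The number of the choice functions for which Maker wins from `(h, B)`, the vertex attacked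
being new. -/
noncomputable def cnt (a b : ℕ) (σ : Hist V → Edge V) (h : Hist V) (B : Finset (Edge V)) : ℕ :=
  (seeds.filter (fun c : Finset V → V => Wins a b σ c (h, B, none))).card

open Classical in
/-- The same with the first vertex attacked being `t`. -/
noncomputable def cntAt (a b : ℕ) (σ : Hist V → Edge V) (h : Hist V) (B : Finset (Edge V))
    (t : V) : ℕ :=
  (seeds.filter (fun c : Finset V → V => c (fresh h) = t ∧ Wins a b σ c (h, B, none))).card

lemma cnt_eq_sum {a b : ℕ} {σ : Hist V → Edge V} {h : Hist V} {B : Finset (Edge V)}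
    (hne : (fresh h).Nonempty) : cnt a b σ h B = ∑ t ∈ fresh h, cntAt a b σ h B t := by
  classical
  have h1 : cnt a b σ h B = ∑ t ∈ fresh h,
      ((seeds.filter (fun c : Finset V → V => Wins a b σ c (h, B, none))).filter
        (fun c => c (fresh h) = t)).card := by
    unfold cnt
    apply Finset.card_eq_sum_card_fiberwise
    intro c hc
    exact mem_seeds.mp (Finset.mem_filter.mp hc).1 _ hne
  rw [h1]
  apply Finset.sum_congr rfl
  intro t _
  unfold cntAt
  rw [Finset.filter_filter]
  congr 1
  apply Finset.filter_congr
  intro c _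
  exact and_comm

lemma choose_wins {a b : ℕ} {σ : Hist V → Edge V} {c : Finset V → V} {h : Hist V}
    {B : Finset (Edge V)} {t : V} (ht : t ∈ fresh h) (hc : c (fresh h) = t)
    (hw : Wins a b σ c (h, B, none)) : Wins a b σ c (h, B, some t) :=
  wins_congr (by simp [aim, ht, hc]) hw

lemma cntAt_never {a b K : ℕ} (hK : Fintype.card V - 1 ≤ (K + 1) * b) {σ : Hist V → Edge V}
    {h : Hist V} {B : Finset (Edge V)} {t : V}
    (ht : t ∈ fresh (ghost a σ B h K)) : cntAt a b σ h B t = 0 := by
  classical
  unfold cntAt
  rw [Finset.card_eq_zero, Finset.filter_eq_empty_iff]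
  rintro c - ⟨h1, h2⟩
  exact never hK ht (choose_wins (fresh_ghost a σ B h K ht) h1 h2)

lemma cntAt_killed {a b : ℕ} {σ : Hist V → Edge V} {h : Hist V} {B : Finset (Edge V)} {t : V}
    (i : ℕ) (ht : t ∈ fresh (ghost a σ B h i)) (ht' : t ∉ fresh (ghost a σ B h (i + 1)))
    (Φ : ℕ → ℝ) (hanti : Antitone Φ) (h0 : ∀ r, 0 ≤ Φ r)
    (IH : ∀ (h' : Hist V) (B' : Finset (Edge V)), (fresh h').card < (fresh h).card →
      (cnt a b σ h' B' : ℝ) ≤ Φ (fresh h').card * (seeds : Finset (Finset V → V)).card) :
    (cntAt a b σ h B t : ℝ) * (fresh h).card ≤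
      Φ ((fresh (ghost a σ B h i)).card - 2 * a) * (seeds : Finset (Finset V → V)).card := by
  classical
  have hth : t ∈ fresh h := fresh_ghost a σ B h i ht
  by_cases hex : ∃ c : Finset V → V, c (fresh h) = t ∧ Wins a b σ c (h, B, none)
  · obtain ⟨c₀, hc₀, hw₀⟩ := hex
    obtain ⟨k1, k2, k3, -⟩ := killed (choose_wins hth hc₀ hw₀) i ht ht'
    set h' := ((single a b σ t)^[i + 1] (h, B)).1 with hh'
    set B' := ((single a b σ t)^[i + 1] (h, B)).2 with hB'
    have hlt : (fresh h').card < (fresh h).card := by
      apply Finset.card_lt_card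
      refine ⟨k3, fun hcon => k1 (hcon hth)⟩
    have hne : fresh h' ≠ fresh h := by
      intro hcon; rw [hcon] at hlt; exact lt_irrefl _ hlt
    have h1 : cntAt a b σ h B t ≤ (seeds.filter
        (fun c : Finset V → V => c (fresh h) = t ∧ Wins a b σ c (h', B', none))).card := by
      apply Finset.card_le_card
      intro c hc
      rw [Finset.mem_filter] at hc ⊢
      refine ⟨hc.1, hc.2.1, ?_⟩
      exact (killed (choose_wins hth hc.2.1 hc.2.2) i ht ht').2.2.2
    have h2 := card_fiber (fun c : Finset V → V => Wins a b σ c (h', B', none)) (fresh h)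
      (by
        intro c x
        have hag : ∀ R ⊆ fresh h', Function.update c (fresh h) x R = c R := by
          intro R hR
          apply Function.update_of_ne
          rintro rfl
          exact hne (Finset.Subset.antisymm k3 hR)
        constructor
        · intro hw
          exact wins_independent (fun R hR => hag R hR) hw
        · intro hw
          exact wins_independent (fun R hR => (hag R hR).symm) hw) hth
    have h3 : cntAt a b σ h B t * (fresh h).card ≤ cnt a b σ h' B' := by
      unfold cnt
      rw [← h2]
      exact Nat.mul_le_mul_right _ h1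
    calc (cntAt a b σ h B t : ℝ) * (fresh h).card ≤ (cnt a b σ h' B' : ℝ) := by exact_mod_cast h3
      _ ≤ Φ (fresh h').card * (seeds : Finset (Finset V → V)).card := IH h' B' hlt
      _ ≤ _ := by
        apply mul_le_mul_of_nonneg_right _ (Nat.cast_nonneg _)
        apply hanti
        omega
  · have : cntAt a b σ h B t = 0 := by
      unfold cntAt
      rw [Finset.card_eq_zero, Finset.filter_eq_empty_iff]
      intro c _ hcon
      exact hex ⟨c, hcon⟩
    rw [this]
    simp only [Nat.cast_zero, zero_mul]
    exact mul_nonneg (h0 _) (Nat.cast_nonneg _)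

/-- The main estimate: for every deterministic strategy of Maker. -/
theorem cnt_le {a b K : ℕ} (hK : Fintype.card V - 1 ≤ (K + 1) * b) (σ : Hist V → Edge V)
    (Φ : ℕ → ℝ) (hanti : Antitone Φ) (h0 : ∀ r, 0 ≤ Φ r)
    (hΦ : ∀ r, 1 ≤ Φ r ∨ (0 < r ∧ ∑ j ∈ range (2 * a * K), Φ (r - j - 2 * a) ≤ r * Φ r))
    (h : Hist V) (B : Finset (Edge V)) :
    (cnt a b σ h B : ℝ) ≤ Φ (fresh h).card * (seeds : Finset (Finset V → V)).card := by
  classical
  induction hr : (fresh h).card using Nat.strong_induction_on generalizing h B with
  | _ r IH =>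
  subst hr
  have hP : (0 : ℝ) ≤ (seeds : Finset (Finset V → V)).card := Nat.cast_nonneg _
  rcases hΦ (fresh h).card with h1 | ⟨hpos, hsum⟩
  · have h2 : cnt a b σ h B ≤ (seeds : Finset (Finset V → V)).card :=
      Finset.card_filter_le _ _
    calc (cnt a b σ h B : ℝ) ≤ (seeds : Finset (Finset V → V)).card := by exact_mod_cast h2
      _ = 1 * (seeds : Finset (Finset V → V)).card := by ring
      _ ≤ _ := mul_le_mul_of_nonneg_right h1 hP
  · set r := (fresh h).card with hr
    set P : ℝ := ((seeds : Finset (Finset V → V)).card : ℝ) with hPdef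
    have hne : (fresh h).Nonempty := Finset.card_pos.mp hpos
    have IH' : ∀ (h' : Hist V) (B' : Finset (Edge V)), (fresh h').card < (fresh h).card →
        (cnt a b σ h' B' : ℝ) ≤ Φ (fresh h').card * P := by
      intro h' B' hlt
      exact IH _ hlt h' B' rfl
    have hrpos : (0 : ℝ) < r := by exact_mod_cast hpos
    -- the vertices killed in the first i turns
    have key : ∀ i, (∑ t ∈ fresh h \ fresh (ghost a σ B h i), (cntAt a b σ h B t : ℝ)) * r ≤
        P * ∑ j ∈ range (r - (fresh (ghost a σ B h i)).card), Φ (r - j - 2 * a) := by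
      intro i
      induction i with
      | zero =>
        show (∑ t ∈ fresh h \ fresh h, (cntAt a b σ h B t : ℝ)) * r ≤
          P * ∑ j ∈ range (r - (fresh h).card), Φ (r - j - 2 * a)
        rw [← hr, Nat.sub_self]
        simp
      | succ i ih =>
        set F := fresh (ghost a σ B h i) with hF
        set F' := fresh (ghost a σ B h (i + 1)) with hF'
        have hFF : F' ⊆ F := fresh_ghost_succ a σ B h i
        have hFR : F ⊆ fresh h := fresh_ghost a σ B h i
        have hcF : F.card ≤ r := Finset.card_le_card hFR
        have hcF' : F'.card ≤ F.card := Finset.card_le_card hFF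
        have e1 : fresh h \ F' = (fresh h \ F) ∪ (F \ F') := by
          ext v
          simp only [Finset.mem_sdiff, Finset.mem_union]
          constructor
          · rintro ⟨g1, g2⟩
            by_cases g3 : v ∈ F
            · exact Or.inr ⟨g3, g2⟩
            · exact Or.inl ⟨g1, g3⟩
          · rintro (⟨g1, g2⟩ | ⟨g1, g2⟩)
            · exact ⟨g1, fun g3 => g2 (hFF g3)⟩
            · exact ⟨hFR g1, g2⟩
        have e2 : Disjoint (fresh h \ F) (F \ F') := by
          rw [Finset.disjoint_left]
          intro v hv hv'
          exact (Finset.mem_sdiff.mp hv).2 (Finset.mem_sdiff.mp hv').1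
        rw [e1, Finset.sum_union e2, add_mul]
        have e3 : (∑ t ∈ F \ F', (cntAt a b σ h B t : ℝ)) * r ≤
            P * (((F.card - F'.card : ℕ) : ℝ) * Φ (F.card - 2 * a)) := by
          rw [Finset.sum_mul]
          calc ∑ t ∈ F \ F', (cntAt a b σ h B t : ℝ) * r
              ≤ ∑ t ∈ F \ F', Φ (F.card - 2 * a) * P := by
                apply Finset.sum_le_sum
                intro t ht
                rw [Finset.mem_sdiff] at ht
                exact cntAt_killed i ht.1 ht.2 Φ hanti h0 IH'
            _ = P * (((F.card - F'.card : ℕ) : ℝ) * Φ (F.card - 2 * a)) := by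
                rw [Finset.sum_const, Finset.card_sdiff_of_subset hFF, nsmul_eq_mul]
                ring
        have e4 : ∑ j ∈ range (r - F.card), Φ (r - j - 2 * a) +
            ((F.card - F'.card : ℕ) : ℝ) * Φ (F.card - 2 * a) ≤
            ∑ j ∈ range (r - F'.card), Φ (r - j - 2 * a) := by
          have e5 : r - F'.card = (r - F.card) + (F.card - F'.card) := by omega
          rw [e5, Finset.sum_range_add]
          have e6 : ((F.card - F'.card : ℕ) : ℝ) * Φ (F.card - 2 * a) =
              ∑ j ∈ range (F.card - F'.card), Φ (F.card - 2 * a) := by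
            rw [Finset.sum_const, Finset.card_range, nsmul_eq_mul]
          rw [e6]
          apply add_le_add_right
          apply Finset.sum_le_sum
          intro j _
          apply hanti
          omega
        calc _ ≤ P * ∑ j ∈ range (r - F.card), Φ (r - j - 2 * a) +
              P * (((F.card - F'.card : ℕ) : ℝ) * Φ (F.card - 2 * a)) := add_le_add ih e3
          _ = P * (∑ j ∈ range (r - F.card), Φ (r - j - 2 * a) +
              ((F.card - F'.card : ℕ) : ℝ) * Φ (F.card - 2 * a)) := by ring
          _ ≤ _ := mul_le_mul_of_nonneg_left e4 hP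
    have hcK : r ≤ (fresh (ghost a σ B h K)).card + 2 * a * K := by
      have : ∀ i, r ≤ (fresh (ghost a σ B h i)).card + 2 * a * i := by
        intro i
        induction i with
        | zero => simp [ghost, hr]
        | succ i ih =>
          have := card_fresh_ghost a σ B h i
          have e7 : 2 * a * (i + 1) = 2 * a * i + 2 * a := by ring
          omega
      exact this K
    have hzero : ∑ t ∈ fresh (ghost a σ B h K), (cntAt a b σ h B t : ℝ) = 0 := by
      apply Finset.sum_eq_zero
      intro t ht
      rw [cntAt_never hK ht]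
      simp
    have htot : (cnt a b σ h B : ℝ) =
        ∑ t ∈ fresh h \ fresh (ghost a σ B h K), (cntAt a b σ h B t : ℝ) := by
      rw [cnt_eq_sum hne]
      push_cast
      rw [← Finset.sum_sdiff (fresh_ghost a σ B h K), hzero, add_zero]
    have h5 := key K
    rw [← htot] at h5
    have h6 : ∑ j ∈ range (r - (fresh (ghost a σ B h K)).card), Φ (r - j - 2 * a) ≤
        ∑ j ∈ range (2 * a * K), Φ (r - j - 2 * a) := by
      apply Finset.sum_le_sum_of_subset_of_nonneg
      · intro j hj
        rw [Finset.mem_range] at hj ⊢
        omega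
      · intro j _ _
        exact h0 _
    have h7 : (cnt a b σ h B : ℝ) * r ≤ (Φ r * P) * r := by
      calc _ ≤ P * ∑ j ∈ range (r - (fresh (ghost a σ B h K)).card), Φ (r - j - 2 * a) := h5
        _ ≤ P * ∑ j ∈ range (2 * a * K), Φ (r - j - 2 * a) := mul_le_mul_of_nonneg_left h6 hP
        _ ≤ P * (r * Φ r) := mul_le_mul_of_nonneg_left hsum hP
        _ = _ := by ring
    exact le_of_mul_le_mul_right h7 hrpos

end Pool.Agent.Q157.PH
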