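import Mathlib

/-!
A nonincreasing function `w ≥ 0`, `w ≥ 1` to the left of `1`, with
`∫ w over (u-1, u) ≤ u * w u` for `u ≥ 1` (such as Dickman's function) gives a function for the
main estimate.
-/

namespace Pool.Agent.Q157.PH

open Finset

theorem supersolution {w : ℝ → ℝ} (hw : Antitone w) (h0 : ∀ u, 0 ≤ w u) (h1 : ∀ u < 1, 1 ≤ w u)
    (hint : ∀ u, 1 ≤ u → ∫ x in (u - 1)..u, w x ≤ u * w u) {N a q : ℕ} (hq : q = N + 2 * a)
    (hqpos : 0 < q) (r : ℕ) :
    1 ≤ w ((r : ℝ) / q) ∨ (0 < r ∧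
      ∑ j ∈ range N, w (((r - j - 2 * a : ℕ) : ℝ) / q) ≤ r * w ((r : ℝ) / q)) := by
  have hqR : (0 : ℝ) < q := by exact_mod_cast hqpos
  rcases Nat.lt_or_ge r q with hr | hr
  · left
    apply h1
    rw [div_lt_one hqR]
    exact_mod_cast hr
  · right
    refine ⟨by omega, ?_⟩
    have hrq : (q : ℝ) ≤ r := by exact_mod_cast hr
    have hu : 1 ≤ (r : ℝ) / q := by rwa [one_le_div hqR]
    set f : ℝ → ℝ := fun x => w (x / q) with hf
    have hfanti : Antitone f := by
      intro x y hxy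
      exact hw (div_le_div_of_nonneg_right hxy hqR.le)
    have e1 : ∑ j ∈ range N, w (((r - j - 2 * a : ℕ) : ℝ) / q) =
        ∑ i ∈ range N, f (((r : ℝ) - q) + (i + 1 : ℕ)) := by
      rw [← Finset.sum_range_reflect]
      apply Finset.sum_congr rfl
      intro i hi
      rw [Finset.mem_range] at hi
      simp only [hf]
      congr 2
      have e2 : (r - (N - 1 - i) - 2 * a : ℕ) + q = r + (i + 1) := by omega
      have e3 : (((r - (N - 1 - i) - 2 * a : ℕ) : ℝ)) + q = r + ((i + 1 : ℕ) : ℝ) := by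
        exact_mod_cast e2
      linarith
    have e4 : ∑ i ∈ range N, f (((r : ℝ) - q) + (i + 1 : ℕ)) ≤
        ∫ x in ((r : ℝ) - q)..((r : ℝ) - q + N), f x :=
      AntitoneOn.sum_le_integral (hfanti.antitoneOn _)
    have hII : ∀ x y : ℝ, IntervalIntegrable f MeasureTheory.volume x y :=
      fun x y => hfanti.intervalIntegrable
    have hqN : (q : ℝ) = N + 2 * a := by rw [hq]; push_cast; ring
    have e5 : ∫ x in ((r : ℝ) - q)..((r : ℝ) - q + N), f x ≤ ∫ x in ((r : ℝ) - q)..(r : ℝ), f x := by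
      rw [← intervalIntegral.integral_add_adjacent_intervals (hII _ ((r : ℝ) - q + N))
        (hII _ (r : ℝ))]
      have : 0 ≤ ∫ x in ((r : ℝ) - q + N)..(r : ℝ), f x := by
        apply intervalIntegral.integral_nonneg
        · rw [hqN]; nlinarith [Nat.cast_nonneg (α := ℝ) a]
        · intro x _; exact h0 _
      linarith
    have e6 : ∫ x in ((r : ℝ) - q)..(r : ℝ), f x =
        q * ∫ x in ((r : ℝ) / q - 1)..((r : ℝ) / q), w x := by
      simp only [hf]
      rw [intervalIntegral.integral_comp_div w hqR.ne', smul_eq_mul]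
      congr 2
      field_simp
    rw [e1]
    calc _ ≤ _ := e4
      _ ≤ _ := e5
      _ = _ := e6
      _ ≤ q * ((r : ℝ) / q * w ((r : ℝ) / q)) :=
          mul_le_mul_of_nonneg_left (hint _ hu) hqR.le
      _ = _ := by field_simp

end Pool.Agent.Q157.PH
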