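import Mathlib

/-!
The phantom minimum-degree-one game: definitions, and the run of the strategies
of PhantomBreaker which attack one untouched vertex at a time.
-/

namespace Pool.Agent.Q157.PH

open Finset

/-- An edge of the complete graph on `V`. -/
abbrev Edge (V : Type) := {e : Sym2 V // ¬ e.IsDiag}

/-- A history (latest attempt first): the edges Maker has tried, each with the result of the
attempt, `true` if the edge belongs to Maker after the attempt, `false` if it belongs to
PhantomBreaker. This is exactly what Maker has learned. -/
abbrev Hist (V : Type) := List (Edge V × Bool)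

variable {V : Type} [Fintype V] [DecidableEq V]

set_option linter.unusedSectionVars false

/-- Maker (with the deterministic strategy `σ`) makes `k` more attempts after the history `h`,
the edges of PhantomBreaker being `B`. -/
def attempts (σ : Hist V → Edge V) (B : Finset (Edge V)) : ℕ → Hist V → Hist V
  | 0, h => h
  | k + 1, h => (σ (attempts σ B k h), decide (σ (attempts σ B k h) ∉ B)) :: attempts σ B k h

/-- The position after `j` rounds: the history and the set of the edges of PhantomBreaker. In a
round Maker first makes `a` attempts, then PhantomBreaker claims the edges `β h`, `h` the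
history. -/
def position (a : ℕ) (σ : Hist V → Edge V) (β : Hist V → Finset (Edge V)) :
    ℕ → Hist V × Finset (Edge V)
  | 0 => ([], ∅)
  | j + 1 => (attempts σ (position a σ β j).2 a (position a σ β j).1,
      (position a σ β j).2 ∪ β (attempts σ (position a σ β j).2 a (position a σ β j).1))

/-- The edges claimed by nobody. -/
def unclaimed (h : Hist V) (B : Finset (Edge V)) : Finset (Edge V) :=
  univ.filter (fun e => e ∉ B ∧ (e, true) ∉ h)

/-- `β` is a strategy of PhantomBreaker in the `(a:b)` game: in every play it claims exactly `b`
unclaimed edges in every round (all of them, if fewer than `b` are left). -/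
def IsBreaker (a b : ℕ) (β : Hist V → Finset (Edge V)) : Prop :=
  ∀ (σ : Hist V → Edge V) (j : ℕ),
    β (position a σ β (j + 1)).1 ⊆
        unclaimed (position a σ β (j + 1)).1 (position a σ β j).2 ∧
      (β (position a σ β (j + 1)).1).card =
        min b (unclaimed (position a σ β (j + 1)).1 (position a σ β j).2).card

/-- Every vertex is in an edge of Maker. -/
def Touched (h : Hist V) : Prop := ∀ v : V, ∃ e : Edge V, v ∈ e.1 ∧ (e, true) ∈ h

/-- Maker wins the play of `σ` against `β`: from some round on every vertex is in an edge of
Maker (edges are never lost, so this says that her final graph has minimum degree at least 1). -/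
def MakerWins (a : ℕ) (σ : Hist V → Edge V) (β : Hist V → Finset (Edge V)) : Prop :=
  ∃ j, Touched (position a σ β j).1

/-! ### Basic facts -/

lemma length_attempts (σ : Hist V → Edge V) (B : Finset (Edge V)) (k : ℕ) (h : Hist V) :
    (attempts σ B k h).length = h.length + k := by
  induction k with
  | zero => simp [attempts]
  | succ k ih => simp [attempts, ih]; omega

lemma subset_attempts (σ : Hist V → Edge V) (B : Finset (Edge V)) (k : ℕ) (h : Hist V) :
    ∀ x ∈ h, x ∈ attempts σ B k h := by
  induction k with
  | zero => intro x hx; simpa [attempts] using hx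
  | succ k ih => intro x hx; simp only [attempts]; exact List.mem_cons_of_mem _ (ih x hx)

/-- The vertices Maker has not tried. -/
def fresh (h : Hist V) : Finset V := univ.filter (fun v => ∀ x ∈ h, v ∉ x.1.1)

/-- The edges at `t`. -/
def star (t : V) : Finset (Edge V) := univ.filter (fun e => t ∈ e.1)

lemma mem_fresh {h : Hist V} {v : V} : v ∈ fresh h ↔ ∀ x ∈ h, v ∉ x.1.1 := by
  simp [fresh]

lemma mem_star {t : V} {e : Edge V} : e ∈ star t ↔ t ∈ e.1 := by
  simp [star]

lemma mem_unclaimed {h : Hist V} {B : Finset (Edge V)} {e : Edge V} :
    e ∈ unclaimed h B ↔ e ∉ B ∧ (e, true) ∉ h := by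
  simp [unclaimed]

lemma card_star (t : V) : (star t).card ≤ Fintype.card V - 1 := by
  classical
  have h1 : ((star t).image Subtype.val).card = (star t).card :=
    Finset.card_image_of_injective _ Subtype.val_injective
  rw [← h1]
  have h2 : (star t).image Subtype.val ⊆ (univ.erase t).image (fun v => s(t, v)) := by
    intro e he
    rw [Finset.mem_image] at he
    obtain ⟨e', he', rfl⟩ := he
    rw [mem_star] at he'
    obtain ⟨v, hv⟩ := Sym2.mem_iff_exists.mp he'
    rw [Finset.mem_image]
    refine ⟨v, ?_, hv.symm⟩
    rw [Finset.mem_erase]
    refine ⟨?_, Finset.mem_univ _⟩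
    rintro rfl
    apply e'.2
    rw [hv]
    simp
  calc _ ≤ ((univ.erase t).image (fun v => s(t, v))).card := Finset.card_le_card h2
    _ ≤ (univ.erase t).card := Finset.card_image_le
    _ = Fintype.card V - 1 := by rw [Finset.card_erase_of_mem (Finset.mem_univ _)]; rfl

lemma fresh_subset_of_subset {h h' : Hist V} (hh : ∀ x ∈ h, x ∈ h') : fresh h' ⊆ fresh h := by
  intro v hv
  rw [mem_fresh] at hv ⊢
  exact fun x hx => hv x (hh x hx)

lemma fresh_attempts_subset (σ : Hist V → Edge V) (B : Finset (Edge V)) (k : ℕ) (h : Hist V) :
    fresh (attempts σ B k h) ⊆ fresh h :=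
  fresh_subset_of_subset (subset_attempts σ B k h)

lemma card_fresh_cons (x : Edge V × Bool) (h : Hist V) :
    (fresh h).card ≤ (fresh (x :: h)).card + 2 := by
  classical
  obtain ⟨⟨e, he⟩, r⟩ := x
  induction e using Sym2.ind with
  | _ u v =>
    have h1 : fresh h ⊆ fresh ((⟨s(u, v), he⟩, r) :: h) ∪ {u, v} := by
      intro w hw
      rw [Finset.mem_union]
      by_cases h2 : w ∈ ({u, v} : Finset V)
      · exact Or.inr h2
      · left
        rw [mem_fresh] at hw ⊢
        intro x hx
        rcases List.mem_cons.mp hx with rfl | hx
        · simpa using h2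
        · exact hw x hx
    calc _ ≤ _ := Finset.card_le_card h1
      _ ≤ _ := Finset.card_union_le _ _
      _ ≤ _ := by
        have := Finset.card_le_two (a := u) (b := v)
        omega

lemma card_fresh_attempts (σ : Hist V → Edge V) (B : Finset (Edge V)) (k : ℕ) (h : Hist V) :
    (fresh h).card ≤ (fresh (attempts σ B k h)).card + 2 * k := by
  induction k with
  | zero => simp [attempts]
  | succ k ih =>
    have := card_fresh_cons (σ (attempts σ B k h), decide (σ (attempts σ B k h) ∉ B))
      (attempts σ B k h)
    simp only [attempts]
    omega

/-- As long as `t` is not tried, the result of the attempts does not depend on the edges of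
PhantomBreaker at `t`. -/
lemma attempts_eq (σ : Hist V → Edge V) (B B' : Finset (Edge V)) (t : V)
    (hB : ∀ e : Edge V, t ∉ e.1 → (e ∈ B' ↔ e ∈ B)) (k : ℕ) (h : Hist V)
    (ht : t ∈ fresh (attempts σ B k h)) : attempts σ B' k h = attempts σ B k h := by
  induction k with
  | zero => rfl
  | succ k ih =>
    have h1 : t ∈ fresh (attempts σ B k h) := by
      refine fresh_subset_of_subset ?_ ht
      intro x hx
      simp only [attempts]
      exact List.mem_cons_of_mem _ hx
    have h2 := ih h1
    have h3 : t ∉ (σ (attempts σ B k h)).1 := by
      rw [mem_fresh] at ht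
      exact ht (σ (attempts σ B k h), decide (σ (attempts σ B k h) ∉ B))
        (by simp only [attempts]; exact List.mem_cons_self)
    simp only [attempts, h2]
    congr 2
    rw [decide_eq_decide, not_iff_not]
    exact hB _ h3

/-! ### Claiming edges at a vertex -/

lemma exists_pick (b : ℕ) (S U : Finset (Edge V)) :
    ∃ F : Finset (Edge V), F ⊆ U ∧ F.card = min b U.card ∧ (F ⊆ S ∨ S ∩ U ⊆ F) := by
  classical
  by_cases hb : b ≤ (S ∩ U).card
  · obtain ⟨F, hF, hc⟩ := Finset.exists_subset_card_eq hb
    refine ⟨F, hF.trans Finset.inter_subset_right, ?_, Or.inl (hF.trans Finset.inter_subset_left)⟩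
    rw [hc, min_eq_left]
    exact hb.trans (Finset.card_le_card Finset.inter_subset_right)
  · obtain ⟨F, hF1, hF2, hc⟩ := Finset.exists_subsuperset_card_eq
      (Finset.inter_subset_right : S ∩ U ⊆ U) (n := min b U.card)
      (le_min (by omega) (Finset.card_le_card Finset.inter_subset_right)) (min_le_right _ _)
    exact ⟨F, hF2, hc, Or.inr hF1⟩

/-- `b` edges out of `U`, at `t` as far as possible. -/
noncomputable def pick (b : ℕ) (t : V) (U : Finset (Edge V)) : Finset (Edge V) :=
  Classical.choose (exists_pick b (star t) U)

lemma pick_subset (b : ℕ) (t : V) (U : Finset (Edge V)) : pick b t U ⊆ U :=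
  (Classical.choose_spec (exists_pick b (star t) U)).1

lemma card_pick (b : ℕ) (t : V) (U : Finset (Edge V)) : (pick b t U).card = min b U.card :=
  (Classical.choose_spec (exists_pick b (star t) U)).2.1

lemma pick_or (b : ℕ) (t : V) (U : Finset (Edge V)) :
    pick b t U ⊆ star t ∨ star t ∩ U ⊆ pick b t U :=
  (Classical.choose_spec (exists_pick b (star t) U)).2.2

/-! ### The strategies of PhantomBreaker -/

/-- The vertex attacked at the history `h`, given the previous one. -/
def aim (c : Finset V → V) (h : Hist V) : Option V → V
  | none => c (fresh h)
  | some t => if t ∈ fresh h then t else c (fresh h)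

/-- The edges of PhantomBreaker and the vertex attacked, after the history. -/
noncomputable def memory (a b : ℕ) (c : Finset V → V) : Hist V → Finset (Edge V) × Option V
  | [] => (∅, none)
  | x :: h => if a ∣ h.length + 1 then
        ((memory a b c h).1 ∪ pick b (aim c (x :: h) (memory a b c h).2)
            (unclaimed (x :: h) (memory a b c h).1),
          some (aim c (x :: h) (memory a b c h).2))
      else memory a b c h

/-- The strategy of PhantomBreaker which attacks the vertex `c R` when the vertex attacked so far
has been tried, `R` the set of the vertices not tried. -/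
noncomputable def strat (a b : ℕ) (c : Finset V → V) : Hist V → Finset (Edge V)
  | [] => ∅
  | x :: h => pick b (aim c (x :: h) (memory a b c h).2) (unclaimed (x :: h) (memory a b c h).1)

lemma memory_attempts (a b : ℕ) (c : Finset V → V) (σ : Hist V → Edge V) (B : Finset (Edge V))
    (h : Hist V) (hh : a ∣ h.length) (k : ℕ) (hk : k < a) :
    memory a b c (attempts σ B k h) = memory a b c h := by
  induction k with
  | zero => rfl
  | succ k ih =>
    have h1 : ¬ a ∣ (attempts σ B k h).length + 1 := by
      rw [length_attempts]
      intro h2
      have h3 : a ∣ k + 1 := by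
        rw [add_assoc] at h2
        exact (Nat.dvd_add_right hh).mp h2
      have := Nat.le_of_dvd (by omega) h3
      omega
    simp only [attempts, memory, h1, if_false]
    exact ih (by omega)

/-- One turn: PhantomBreaker moves, then Maker makes `a` attempts. -/
noncomputable def turn (a b : ℕ) (σ : Hist V → Edge V) (c : Finset V → V)
    (s : Hist V × Finset (Edge V) × Option V) : Hist V × Finset (Edge V) × Option V :=
  (attempts σ (s.2.1 ∪ pick b (aim c s.1 s.2.2) (unclaimed s.1 s.2.1)) a s.1,
    s.2.1 ∪ pick b (aim c s.1 s.2.2) (unclaimed s.1 s.2.1), some (aim c s.1 s.2.2))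

lemma length_position (a : ℕ) (σ : Hist V → Edge V) (β : Hist V → Finset (Edge V)) (j : ℕ) :
    (position a σ β j).1.length = a * j := by
  induction j with
  | zero => simp [position]
  | succ j ih => simp only [position, length_attempts, ih]; ring

lemma strat_attempts (a b : ℕ) (ha : 1 ≤ a) (c : Finset V → V) (σ : Hist V → Edge V)
    (B : Finset (Edge V)) (h : Hist V) (hh : a ∣ h.length) :
    strat a b c (attempts σ B a h) =
        pick b (aim c (attempts σ B a h) (memory a b c h).2)
          (unclaimed (attempts σ B a h) (memory a b c h).1) ∧
      memory a b c (attempts σ B a h) =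
        ((memory a b c h).1 ∪ strat a b c (attempts σ B a h),
          some (aim c (attempts σ B a h) (memory a b c h).2)) := by
  obtain ⟨k, rfl⟩ : ∃ k, a = k + 1 := ⟨a - 1, by omega⟩
  have h1 := memory_attempts (k + 1) b c σ B h hh k (by omega)
  have h2 : k + 1 ∣ (attempts σ B k h).length + 1 := by
    rw [length_attempts]
    have := Nat.dvd_add hh (dvd_refl (k + 1))
    rw [add_assoc]
    exact this
  constructor
  · simp only [attempts, strat, h1]
  · simp only [attempts, strat, memory, h2, if_true, h1]

lemma memory_position (a b : ℕ) (ha : 1 ≤ a) (c : Finset V → V) (σ : Hist V → Edge V) (j : ℕ) :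
    (memory a b c (position a σ (strat a b c) j).1).1 = (position a σ (strat a b c) j).2 := by
  induction j with
  | zero => simp [position, memory]
  | succ j ih =>
    have h1 : a ∣ (position a σ (strat a b c) j).1.length := by
      rw [length_position]; exact dvd_mul_right _ _
    have h2 := (strat_attempts a b ha c σ (position a σ (strat a b c) j).2 _ h1).2
    simp only [position, h2, ih]

lemma isBreaker_strat (a b : ℕ) (ha : 1 ≤ a) (c : Finset V → V) :
    IsBreaker a b (strat a b c) := by
  intro σ j
  have h1 : a ∣ (position a σ (strat a b c) j).1.length := by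
    rw [length_position]; exact dvd_mul_right _ _
  have h2 := (strat_attempts a b ha c σ (position a σ (strat a b c) j).2 _ h1).1
  rw [memory_position a b ha] at h2
  simp only [position]
  rw [h2]
  exact ⟨pick_subset _ _ _, card_pick _ _ _⟩

/-- The state at the first turn of PhantomBreaker. -/
def start (a : ℕ) (σ : Hist V → Edge V) : Hist V × Finset (Edge V) × Option V :=
  (attempts σ ∅ a [], ∅, none)

lemma iterate_turn (a b : ℕ) (ha : 1 ≤ a) (c : Finset V → V) (σ : Hist V → Edge V) (j : ℕ) :
    (turn a b σ c)^[j] (start a σ) = ((position a σ (strat a b c) (j + 1)).1,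
      (position a σ (strat a b c) j).2,
      (memory a b c (position a σ (strat a b c) j).1).2) := by
  induction j with
  | zero => simp [start, position, memory]
  | succ j ih =>
    rw [Function.iterate_succ_apply', ih]
    have h1 : a ∣ (position a σ (strat a b c) j).1.length := by
      rw [length_position]; exact dvd_mul_right _ _
    have h2 := strat_attempts a b ha c σ (position a σ (strat a b c) j).2 _ h1
    rw [memory_position a b ha] at h2
    have h3 : (position a σ (strat a b c) (j + 1)).2 = (position a σ (strat a b c) j).2 ∪
        pick b (aim c (position a σ (strat a b c) (j + 1)).1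
          (memory a b c (position a σ (strat a b c) j).1).2)
          (unclaimed (position a σ (strat a b c) (j + 1)).1 (position a σ (strat a b c) j).2) := by
      simp only [position]
      rw [h2.1]
    have h4 : (memory a b c (position a σ (strat a b c) (j + 1)).1).2 =
        some (aim c (position a σ (strat a b c) (j + 1)).1
          (memory a b c (position a σ (strat a b c) j).1).2) := by
      simp only [position]
      rw [h2.2]
    rw [h4]
    simp only [turn]
    rw [← h3]
    rfl

end Pool.Agent.Q157.PH
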