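import Mathlib

/-!
A step function which satisfies the inequality of the main estimate, and whose value at the
number of vertices is less than `11/12` times `1/m!`.
-/

namespace Pool.Agent.Q157.PH

open Finset

/-- The values on the levels `k ≥ 2`. -/
noncomputable def lvl (η : ℝ) (k : ℕ) : ℝ := 5 / 6 * (1 + η) ^ k / (k.factorial : ℝ)

lemma lvl_nonneg {η : ℝ} (h0 : 0 ≤ η) (k : ℕ) : 0 ≤ lvl η k := by
  unfold lvl; positivity

lemma lvl_succ (η : ℝ) (k : ℕ) : lvl η (k + 1) * (k + 1) = lvl η k * (1 + η) := by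
  unfold lvl
  rw [Nat.factorial_succ, pow_succ]
  push_cast
  have : (k.factorial : ℝ) ≠ 0 := by positivity
  field_simp

lemma lvl_succ_le {η : ℝ} (h0 : 0 ≤ η) (h1 : η ≤ 1) (k : ℕ) (hk : 1 ≤ k) :
    lvl η (k + 1) ≤ lvl η k := by
  have h2 := lvl_succ η k
  have h3 := lvl_nonneg h0 k
  have h4 : (1 : ℝ) ≤ k := by exact_mod_cast hk
  have h5 : (0 : ℝ) < (k : ℝ) + 1 := by positivity
  have h6 : lvl η (k + 1) * (k + 1) ≤ lvl η k * (k + 1) := by
    rw [h2]
    exact mul_le_mul_of_nonneg_left (by linarith) h3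
  exact le_of_mul_le_mul_right h6 h5

lemma lvl_anti {η : ℝ} (h0 : 0 ≤ η) (h1 : η ≤ 1) (k : ℕ) (hk : 1 ≤ k) (l : ℕ) (hl : k ≤ l) :
    lvl η l ≤ lvl η k := by
  induction l, hl using Nat.le_induction with
  | base => exact le_refl _
  | succ l hl ih => exact (lvl_succ_le h0 h1 l (by omega)).trans ih

/-- The step function, in terms of `y`. -/
noncomputable def lev (η : ℝ) (q y : ℕ) : ℝ :=
  if 2 * y < 3 * q then 1 else if y < 2 * q then 2 / 3 * (1 + η) else lvl η (y / q)

variable {η : ℝ} {q : ℕ}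

lemma lvl_two_le (h0 : 0 ≤ η) (h1 : η ≤ 1 / 2) : lvl η 2 ≤ 2 / 3 * (1 + η) := by
  unfold lvl
  norm_num [Nat.factorial]
  nlinarith

lemma lev_le_one (h0 : 0 ≤ η) (h1 : η ≤ 1 / 2) (hq : 0 < q) (y : ℕ) : lev η q y ≤ 1 := by
  unfold lev
  split_ifs with g1 g2
  · exact le_refl _
  · linarith
  · have h2 : 2 ≤ y / q := (Nat.le_div_iff_mul_le hq).mpr (by omega)
    have := lvl_anti h0 (by linarith) 2 (by norm_num) _ h2
    have := lvl_two_le h0 h1
    linarith

lemma lev_le_mid (h0 : 0 ≤ η) (h1 : η ≤ 1 / 2) (hq : 0 < q) (y : ℕ) (hy : 3 * q ≤ 2 * y) :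
    lev η q y ≤ 2 / 3 * (1 + η) := by
  unfold lev
  split_ifs with g1 g2
  · omega
  · exact le_refl _
  · have h2 : 2 ≤ y / q := (Nat.le_div_iff_mul_le hq).mpr (by omega)
    have := lvl_anti h0 (by linarith) 2 (by norm_num) _ h2
    have := lvl_two_le h0 h1
    linarith

lemma lev_le_lvl (h0 : 0 ≤ η) (h1 : η ≤ 1 / 2) (hq : 0 < q) (k y : ℕ) (hk : 2 ≤ k)
    (hy : k * q ≤ y) : lev η q y ≤ lvl η k := by
  have h3 : 2 * q ≤ k * q := Nat.mul_le_mul_right q hk
  unfold lev
  split_ifs with g1 g2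
  · omega
  · omega
  · exact lvl_anti h0 (by linarith) k (by omega) _ ((Nat.le_div_iff_mul_le hq).mpr hy)

lemma lev_nonneg (h0 : 0 ≤ η) (y : ℕ) : 0 ≤ lev η q y := by
  unfold lev
  split_ifs
  · norm_num
  · positivity
  · exact lvl_nonneg h0 _

lemma lev_anti (h0 : 0 ≤ η) (h1 : η ≤ 1 / 2) (hq : 0 < q) : Antitone (lev η q) := by
  intro y y' hyy
  conv_rhs => unfold lev
  split_ifs with g1 g2
  · exact lev_le_one h0 h1 hq y'
  · exact lev_le_mid h0 h1 hq y' (by omega)
  · apply lev_le_lvl h0 h1 hq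
    · exact (Nat.le_div_iff_mul_le hq).mpr (by omega)
    · exact (Nat.div_mul_le_self y q).trans hyy

/-- The inequality. -/
lemma lev_sum {a N D h : ℕ} (h0 : 0 < η) (h1 : η ≤ 1 / 2) (hq : q = N + 2 * a) (hq2 : q = 2 * h)
    (hh : 0 < h) (hD : (D : ℝ) * (1 + η) ≤ η * q) (r : ℕ) :
    1 ≤ lev η q (r + D) ∨ (0 < r ∧
      ∑ j ∈ range N, lev η q (r - j - 2 * a + D) ≤ r * lev η q (r + D)) := by
  by_cases g1 : 2 * (r + D) < 3 * q
  · left; unfold lev; rw [if_pos g1]
  right
  have hqpos : 0 < q := by omega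
  have hqR : (0 : ℝ) < q := by exact_mod_cast hqpos
  have hDR : (0 : ℝ) ≤ D := Nat.cast_nonneg _
  have hDq : (D : ℝ) < q := by
    have : (D : ℝ) * 1 ≤ D * (1 + η) := mul_le_mul_of_nonneg_left (by linarith) hDR
    nlinarith
  have hDq' : D < q := by exact_mod_cast hDq
  have hr : 0 < r := by omega
  refine ⟨hr, ?_⟩
  have hyR : ((r + D : ℕ) : ℝ) = (r : ℝ) + D := by push_cast; ring
  have hNq : (N : ℝ) ≤ q := by exact_mod_cast (by omega : N ≤ q)
  by_cases g2 : r + D < 2 * q
  · have e1 : lev η q (r + D) = 2 / 3 * (1 + η) := by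
      unfold lev; rw [if_neg g1, if_pos g2]
    rw [e1]
    have e2 : ∑ j ∈ range N, lev η q (r - j - 2 * a + D) ≤ N := by
      calc _ ≤ ∑ j ∈ range N, (1 : ℝ) := Finset.sum_le_sum
            (fun j _ => lev_le_one h0.le h1 hqpos _)
        _ = N := by simp
    have e3 : (3 : ℝ) * q ≤ 2 * ((r : ℝ) + D) := by
      rw [← hyR]; exact_mod_cast (by omega : 3 * q ≤ 2 * (r + D))
    nlinarith
  · push Not at g2
    obtain ⟨k, hk⟩ : ∃ k, k = (r + D) / q := ⟨_, rfl⟩
    have hk2 : 2 ≤ k := by rw [hk]; exact (Nat.le_div_iff_mul_le hqpos).mpr g2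
    have hkq : k * q ≤ r + D := by rw [hk]; exact Nat.div_mul_le_self _ _
    have hkqR : (k : ℝ) * q ≤ (r : ℝ) + D := by rw [← hyR]; exact_mod_cast hkq
    have hkR : (2 : ℝ) ≤ k := by exact_mod_cast hk2
    have e1 : lev η q (r + D) = lvl η k := by
      unfold lev; rw [if_neg g1, if_neg (by omega), hk]
    rw [e1]
    -- (k q - D)(1+η) ≥ k q
    have e2 : (k : ℝ) * q ≤ r * (1 + η) := by
      have e3 : ((k : ℝ) * q - D) * (1 + η) ≤ r * (1 + η) :=
        mul_le_mul_of_nonneg_right (by linarith) (by linarith)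
      have e4 : (1 : ℝ) * (η * q) ≤ k * (η * q) :=
        mul_le_mul_of_nonneg_right (by linarith) (by positivity)
      nlinarith
    rcases Nat.lt_or_ge k 3 with h3 | h3
    · have hk' : k = 2 := by omega
      subst hk'
      have e5 : ∀ j ∈ range N, lev η q (r - j - 2 * a + D) ≤
          2 / 3 * (1 + η) + if j < N - h then 0 else 1 / 3 := by
        intro j hj
        rw [Finset.mem_range] at hj
        split_ifs with g3
        · rw [add_zero]
          apply lev_le_mid h0.le h1 hqpos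
          omega
        · have := lev_le_one h0.le h1 hqpos (r - j - 2 * a + D)
          linarith
      have e6 : ∑ j ∈ range N, (if j < N - h then (0 : ℝ) else 1 / 3) ≤ 1 / 3 * h := by
        have e7 : ∀ j ∈ range N, (if j < N - h then (0 : ℝ) else 1 / 3) =
            1 / 3 * (if j < N - h then (0 : ℝ) else 1) := by
          intro j _
          split_ifs <;> norm_num
        rw [Finset.sum_congr rfl e7, ← Finset.mul_sum]
        apply mul_le_mul_of_nonneg_left _ (by norm_num)
        have e8 : ∑ j ∈ range N, (if j < N - h then (0 : ℝ) else 1) =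
            (((range N).filter (fun j => ¬ j < N - h)).card : ℝ) := by
          rw [Finset.card_filter]
          push_cast
          apply Finset.sum_congr rfl
          intro j _
          by_cases hj : j < N - h
          · rw [if_pos hj, if_neg (not_not.mpr hj)]
          · rw [if_neg hj, if_pos hj]
        rw [e8]
        have e9 : (range N).filter (fun j => ¬ j < N - h) ⊆ Finset.Ico (N - h) N := by
          intro j hj
          rw [Finset.mem_filter, Finset.mem_range] at hj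
          rw [Finset.mem_Ico]
          omega
        have e10 := Finset.card_le_card e9
        rw [Nat.card_Ico] at e10
        exact_mod_cast (by omega : ((range N).filter (fun j => ¬ j < N - h)).card ≤ h)
      have e11 : ∑ j ∈ range N, lev η q (r - j - 2 * a + D) ≤
          N * (2 / 3 * (1 + η)) + 1 / 3 * h := by
        calc _ ≤ ∑ j ∈ range N, (2 / 3 * (1 + η) + if j < N - h then 0 else 1 / 3) :=
              Finset.sum_le_sum e5
          _ = N * (2 / 3 * (1 + η)) + ∑ j ∈ range N, (if j < N - h then (0 : ℝ) else 1 / 3) := by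
              rw [Finset.sum_add_distrib, Finset.sum_const, Finset.card_range, nsmul_eq_mul]
          _ ≤ _ := by linarith
      have e12 : (q : ℝ) = 2 * h := by rw [hq2]; push_cast; ring
      have e13 : lvl η 2 = 5 / 12 * (1 + η) ^ 2 := by
        unfold lvl; norm_num [Nat.factorial]; ring
      rw [e13]
      have e14 : (2 : ℝ) * q * (5 / 12 * (1 + η)) ≤ r * (1 + η) * (5 / 12 * (1 + η)) := by
        apply mul_le_mul_of_nonneg_right _ (by positivity)
        simpa using e2
      have e15 : (N : ℝ) * (2 / 3 * (1 + η)) ≤ q * (2 / 3 * (1 + η)) :=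
        mul_le_mul_of_nonneg_right hNq (by positivity)
      have hhR : (0 : ℝ) < h := by exact_mod_cast hh
      nlinarith
    · have h3q : 3 * q ≤ k * q := Nat.mul_le_mul_right q h3
      obtain ⟨l, rfl⟩ : ∃ l, k = l + 1 := ⟨k - 1, by omega⟩
      have h4 : (l + 1) * q = l * q + q := by ring
      have e5 : ∀ j ∈ range N, lev η q (r - j - 2 * a + D) ≤ lvl η l := by
        intro j hj
        rw [Finset.mem_range] at hj
        apply lev_le_lvl h0.le h1 hqpos l _ (by omega)
        omega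
      have e6 : ∑ j ∈ range N, lev η q (r - j - 2 * a + D) ≤ N * lvl η l := by
        calc _ ≤ ∑ j ∈ range N, lvl η l := Finset.sum_le_sum e5
          _ = N * lvl η l := by rw [Finset.sum_const, Finset.card_range, nsmul_eq_mul]
      have e7 := lvl_succ η l
      have e8 := lvl_nonneg h0.le l
      have e9 : (0 : ℝ) < (l : ℝ) + 1 := by positivity
      have e10 : (N : ℝ) * lvl η l ≤ q * lvl η l := mul_le_mul_of_nonneg_right hNq e8
      push_cast at e2
      have e11 : (q : ℝ) * lvl η l * ((l : ℝ) + 1) ≤ r * lvl η (l + 1) * ((l : ℝ) + 1) := by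
        calc (q : ℝ) * lvl η l * ((l : ℝ) + 1) = (((l : ℝ) + 1) * q) * lvl η l := by ring
          _ ≤ (r * (1 + η)) * lvl η l := mul_le_mul_of_nonneg_right e2 e8
          _ = r * (lvl η l * (1 + η)) := by ring
          _ = r * lvl η (l + 1) * ((l : ℝ) + 1) := by rw [← e7]; ring
      have e12 := le_of_mul_le_mul_right e11 e9
      linarith

lemma pow_bound (m : ℕ) (hm : 1 ≤ m) : (1 + 1 / (12 * (m : ℝ))) ^ m ≤ 12 / 11 := by
  have hmR : (1 : ℝ) ≤ m := by exact_mod_cast hm
  set η : ℝ := 1 / (12 * (m : ℝ)) with hη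
  have h0 : 0 < η := by positivity
  have h1 : η ≤ 1 / 12 := by
    rw [hη, div_le_div_iff₀ (by positivity) (by norm_num)]; nlinarith
  have h2 : (m : ℝ) * η = 1 / 12 := by rw [hη]; field_simp
  have h3 : 1 + (m : ℝ) * (-η) ≤ (1 + -η) ^ m := one_add_mul_le_pow (by linarith) m
  have h4 : (1 + η) ^ m * (1 + -η) ^ m ≤ 1 := by
    rw [← mul_pow]
    apply pow_le_one₀
    · nlinarith
    · nlinarith
  have h5 : (11 : ℝ) / 12 ≤ (1 + -η) ^ m := by
    calc (11 : ℝ) / 12 = 1 + (m : ℝ) * (-η) := by rw [mul_neg, h2]; norm_num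
      _ ≤ _ := h3
  have h6 : (0 : ℝ) < (1 + η) ^ m := by positivity
  have h7 : (1 + η) ^ m * (11 / 12) ≤ 1 := (mul_le_mul_of_nonneg_left h5 h6.le).trans h4
  linarith

/-- The function for the game. -/
theorem exists_phi (a m K : ℕ) (ha : 1 ≤ a) (hm : 2 ≤ m)
    (hK : (m + 1) * (12 * m + 1) ≤ K + 1) :
    ∃ Φ : ℕ → ℝ, Antitone Φ ∧ (∀ r, 0 ≤ Φ r) ∧
      (∀ r, 1 ≤ Φ r ∨
        (0 < r ∧ ∑ j ∈ range (2 * a * K), Φ (r - j - 2 * a) ≤ r * Φ r)) ∧
      ∀ r, m * (2 * a * (K + 1)) ≤ r + 2 * a * (m + 1) →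
        Φ r ≤ 10 / 11 / (m.factorial : ℝ) := by
  have hmR : (2 : ℝ) ≤ m := by exact_mod_cast hm
  set η : ℝ := 1 / (12 * (m : ℝ)) with hη
  have h0 : 0 < η := by positivity
  have h1 : η ≤ 1 / 2 := by
    rw [hη, div_le_div_iff₀ (by positivity) (by norm_num)]; nlinarith
  set q := 2 * a * (K + 1) with hq
  have hqpos : 0 < q := by positivity
  have hD : ((2 * a * (m + 1) : ℕ) : ℝ) * (1 + η) ≤ η * q := by
    have e1 : ((2 * a * (m + 1)) * (12 * m + 1) : ℕ) ≤ q := by
      rw [hq, mul_assoc (2 * a)]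
      exact Nat.mul_le_mul_left _ hK
    have e2 : (((2 * a * (m + 1)) * (12 * m + 1) : ℕ) : ℝ) ≤ q := by exact_mod_cast e1
    have e3 : η * (12 * (m : ℝ)) = 1 := by rw [hη]; field_simp
    have e4 : ((2 * a * (m + 1) : ℕ) : ℝ) * (1 + η) =
        η * (((2 * a * (m + 1)) * (12 * m + 1) : ℕ) : ℝ) := by
      rw [Nat.cast_mul (2 * a * (m + 1)) (12 * m + 1)]
      push_cast
      linear_combination (-(2 * (a : ℝ) * (m + 1))) * e3
    rw [e4]
    exact mul_le_mul_of_nonneg_left e2 h0.le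
  refine ⟨fun r => lev η q (r + 2 * a * (m + 1)), ?_, ?_, ?_, ?_⟩
  · intro r r' hrr
    exact lev_anti h0.le h1 hqpos (by omega)
  · intro r; exact lev_nonneg h0.le _
  · intro r
    exact lev_sum (a := a) (N := 2 * a * K) (h := a * (K + 1)) h0 h1
      (by rw [hq]; ring) (by rw [hq]; ring) (by positivity) hD r
  · intro r hr
    have e1 := lev_le_lvl h0.le h1 hqpos m (r + 2 * a * (m + 1)) hm hr
    have e2 : lvl η m ≤ 10 / 11 / (m.factorial : ℝ) := by
      unfold lvl
      apply div_le_div_of_nonneg_right _ (by positivity)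
      have := pow_bound m (by omega)
      rw [← hη] at this
      linarith
    exact e1.trans e2

end Pool.Agent.Q157.PH
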