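import Pool.Agent.Q157.PH.Game

/-!
One attack of PhantomBreaker: the analysis of the plays in which the vertex `t` is attacked.
-/

namespace Pool.Agent.Q157.PH

open Finset

variable {V : Type} [Fintype V] [DecidableEq V]

set_option linter.unusedSectionVars false

/-- Maker wins from the state `s`. -/
def Wins (a b : ℕ) (σ : Hist V → Edge V) (c : Finset V → V)
    (s : Hist V × Finset (Edge V) × Option V) : Prop :=
  ∃ k, Touched ((turn a b σ c)^[k] s).1

lemma touched_mono {h h' : Hist V} (hh : ∀ x ∈ h, x ∈ h') (ht : Touched h) : Touched h' := by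
  intro v
  obtain ⟨e, he, he'⟩ := ht v
  exact ⟨e, he, hh _ he'⟩

lemma wins_turn {a b : ℕ} {σ : Hist V → Edge V} {c : Finset V → V}
    {s : Hist V × Finset (Edge V) × Option V} (h : Wins a b σ c s) :
    Wins a b σ c (turn a b σ c s) := by
  obtain ⟨k, hk⟩ := h
  cases k with
  | zero =>
    refine ⟨0, touched_mono ?_ hk⟩
    intro x hx
    exact subset_attempts _ _ _ _ x hx
  | succ k =>
    refine ⟨k, ?_⟩
    rw [Function.iterate_succ_apply] at hk
    exact hk

lemma attempts_untouched (σ : Hist V → Edge V) (B : Finset (Edge V)) (t : V) (hB : star t ⊆ B)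
    (k : ℕ) (h : Hist V) (hh : ∀ e : Edge V, t ∈ e.1 → (e, true) ∉ h) :
    ∀ e : Edge V, t ∈ e.1 → (e, true) ∉ attempts σ B k h := by
  induction k with
  | zero => exact hh
  | succ k ih =>
    intro e he hm
    simp only [attempts] at hm
    rcases List.mem_cons.mp hm with h1 | h1
    · have h2 : e = σ (attempts σ B k h) := congrArg Prod.fst h1
      have h3 : true = decide (σ (attempts σ B k h) ∉ B) := congrArg Prod.snd h1
      rw [← h2] at h3
      have h4 : e ∉ B := by simpa using h3.symm
      exact h4 (hB (mem_star.mpr he))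
    · exact ih e he h1

lemma not_wins {a b : ℕ} {σ : Hist V → Edge V} {c : Finset V → V} (t : V)
    {s : Hist V × Finset (Edge V) × Option V} (hs : ∀ e : Edge V, t ∈ e.1 → (e, true) ∉ s.1)
    (hB : star t ⊆ s.2.1) : ¬ Wins a b σ c s := by
  have key : ∀ k, (∀ e : Edge V, t ∈ e.1 → (e, true) ∉ ((turn a b σ c)^[k] s).1) ∧
      star t ⊆ ((turn a b σ c)^[k] s).2.1 := by
    intro k
    induction k with
    | zero => exact ⟨hs, hB⟩
    | succ k ih =>
      rw [Function.iterate_succ_apply']
      have h1 : star t ⊆ (turn a b σ c ((turn a b σ c)^[k] s)).2.1 :=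
        ih.2.trans Finset.subset_union_left
      exact ⟨attempts_untouched σ _ t h1 a _ ih.1, h1⟩
  rintro ⟨k, hk⟩
  obtain ⟨e, he, he'⟩ := hk t
  exact (key k).1 e he he'

lemma wins_of_makerWins [Nonempty V] {a b : ℕ} (ha : 1 ≤ a) {σ : Hist V → Edge V}
    {c : Finset V → V} (h : MakerWins a σ (strat a b c)) : Wins a b σ c (start a σ) := by
  obtain ⟨j, hj⟩ := h
  cases j with
  | zero =>
    obtain ⟨e, -, he⟩ := hj (Classical.arbitrary V)
    simp [position] at he
  | succ j =>
    refine ⟨j, ?_⟩
    rw [iterate_turn a b ha]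
    exact hj

lemma wins_congr {a b : ℕ} {σ : Hist V → Edge V} {c : Finset V → V} {h : Hist V}
    {B : Finset (Edge V)} {o o' : Option V} (ho : aim c h o = aim c h o')
    (hw : Wins a b σ c (h, B, o)) : Wins a b σ c (h, B, o') := by
  obtain ⟨k, hk⟩ := hw
  cases k with
  | zero => exact ⟨0, hk⟩
  | succ k =>
    refine ⟨k + 1, ?_⟩
    rw [Function.iterate_succ_apply] at hk ⊢
    have : turn a b σ c (h, B, o) = turn a b σ c (h, B, o') := by
      simp only [turn, ho]
    rwa [← this]

/-- One turn of the attack on `t`. -/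
noncomputable def single (a b : ℕ) (σ : Hist V → Edge V) (t : V)
    (s : Hist V × Finset (Edge V)) : Hist V × Finset (Edge V) :=
  (attempts σ (s.2 ∪ pick b t (unclaimed s.1 s.2)) a s.1, s.2 ∪ pick b t (unclaimed s.1 s.2))

lemma turn_alive {a b : ℕ} {σ : Hist V → Edge V} {c : Finset V → V} {h : Hist V}
    {B : Finset (Edge V)} {t : V} (ht : t ∈ fresh h) :
    turn a b σ c (h, B, some t) =
      ((single a b σ t (h, B)).1, (single a b σ t (h, B)).2, some t) := by
  simp [turn, single, aim, ht]

lemma step_facts {a b : ℕ} {σ : Hist V → Edge V} {c : Finset V → V} {h : Hist V}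
    {B : Finset (Edge V)} {t : V} (ht : t ∈ fresh h) (hw : Wins a b σ c (h, B, some t)) :
    pick b t (unclaimed h B) ⊆ star t ∧
      (star t ∩ (B ∪ pick b t (unclaimed h B))).card = (star t ∩ B).card + b ∧
      (star t ∩ B).card + b < (star t).card ∧
      Wins a b σ c ((single a b σ t (h, B)).1, (single a b σ t (h, B)).2, some t) := by
  classical
  have hw' := wins_turn hw
  rw [turn_alive ht] at hw'
  have hfree : ∀ e : Edge V, t ∈ e.1 → (e, true) ∉ h := by
    intro e he hm
    exact (mem_fresh.mp ht) _ hm he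
  have hnot : ¬ star t ⊆ B ∪ pick b t (unclaimed h B) := by
    intro hsub
    refine not_wins t ?_ ?_ hw'
    · exact attempts_untouched σ _ t hsub a h hfree
    · exact hsub
  have hnot' : ¬ star t ∩ unclaimed h B ⊆ pick b t (unclaimed h B) := by
    intro hsub
    apply hnot
    intro e he
    rw [Finset.mem_union]
    by_cases heB : e ∈ B
    · exact Or.inl heB
    · right
      apply hsub
      rw [Finset.mem_inter, mem_unclaimed]
      exact ⟨he, heB, hfree e (mem_star.mp he)⟩
  have hF : pick b t (unclaimed h B) ⊆ star t := (pick_or b t (unclaimed h B)).resolve_right hnot'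
  have hcard : (pick b t (unclaimed h B)).card = b := by
    rw [card_pick]
    by_contra hc
    have hlt : (unclaimed h B).card ≤ b := by
      by_contra hcon
      exact hc (min_eq_left (by omega))
    apply hnot'
    have : pick b t (unclaimed h B) = unclaimed h B := by
      apply Finset.eq_of_subset_of_card_le (pick_subset _ _ _)
      rw [card_pick, min_eq_right hlt]
    rw [this]
    exact Finset.inter_subset_right
  have hdis : Disjoint (star t ∩ B) (pick b t (unclaimed h B)) := by
    rw [Finset.disjoint_left]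
    intro e he he'
    have := mem_unclaimed.mp (pick_subset _ _ _ he')
    exact this.1 (Finset.mem_inter.mp he).2
  have heq : star t ∩ (B ∪ pick b t (unclaimed h B)) =
      (star t ∩ B) ∪ pick b t (unclaimed h B) := by
    rw [Finset.inter_union_distrib_left, Finset.inter_eq_right.mpr hF]
  have hsum : (star t ∩ (B ∪ pick b t (unclaimed h B))).card = (star t ∩ B).card + b := by
    rw [heq, Finset.card_union_of_disjoint hdis, hcard]
  refine ⟨hF, hsum, ?_, hw'⟩
  rw [← hsum]
  apply Finset.card_lt_card
  refine ⟨Finset.inter_subset_left, fun hcon => hnot ?_⟩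
  exact hcon.trans Finset.inter_subset_right

/-- What Maker does as long as she does not meet the vertex attacked. -/
def ghost (a : ℕ) (σ : Hist V → Edge V) (B : Finset (Edge V)) (h : Hist V) : ℕ → Hist V
  | 0 => h
  | i + 1 => attempts σ B a (ghost a σ B h i)

lemma fresh_ghost_succ (a : ℕ) (σ : Hist V → Edge V) (B : Finset (Edge V)) (h : Hist V) (i : ℕ) :
    fresh (ghost a σ B h (i + 1)) ⊆ fresh (ghost a σ B h i) :=
  fresh_attempts_subset _ _ _ _

lemma fresh_ghost (a : ℕ) (σ : Hist V → Edge V) (B : Finset (Edge V)) (h : Hist V) (i : ℕ) :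
    fresh (ghost a σ B h i) ⊆ fresh h := by
  induction i with
  | zero => exact Finset.Subset.refl _
  | succ i ih => exact (fresh_ghost_succ a σ B h i).trans ih

lemma card_fresh_ghost (a : ℕ) (σ : Hist V → Edge V) (B : Finset (Edge V)) (h : Hist V) (i : ℕ) :
    (fresh (ghost a σ B h i)).card ≤ (fresh (ghost a σ B h (i + 1))).card + 2 * a :=
  card_fresh_attempts _ _ _ _

lemma phase {a b : ℕ} {σ : Hist V → Edge V} {c : Finset V → V} {h : Hist V}
    {B : Finset (Edge V)} {t : V} (hw : Wins a b σ c (h, B, some t)) (i : ℕ)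
    (ht : t ∈ fresh (ghost a σ B h i)) :
    ((single a b σ t)^[i] (h, B)).1 = ghost a σ B h i ∧
      (∀ e : Edge V, t ∉ e.1 → (e ∈ ((single a b σ t)^[i] (h, B)).2 ↔ e ∈ B)) ∧
      i * b ≤ (star t ∩ ((single a b σ t)^[i] (h, B)).2).card ∧
      Wins a b σ c (((single a b σ t)^[i] (h, B)).1, ((single a b σ t)^[i] (h, B)).2, some t) := by
  induction i with
  | zero => exact ⟨rfl, fun e _ => Iff.rfl, by simp, hw⟩
  | succ i ih =>
    obtain ⟨h1, h2, h3, h4⟩ := ih (fresh_ghost_succ a σ B h i ht)
    have ht' : t ∈ fresh ((single a b σ t)^[i] (h, B)).1 := by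
      rw [h1]; exact fresh_ghost_succ a σ B h i ht
    obtain ⟨g1, g2, g3, g4⟩ := step_facts ht' h4
    rw [Function.iterate_succ_apply']
    have k1 : ∀ e : Edge V, t ∉ e.1 →
        (e ∈ (single a b σ t ((single a b σ t)^[i] (h, B))).2 ↔ e ∈ B) := by
      intro e he
      simp only [single, Finset.mem_union]
      rw [h2 e he]
      constructor
      · rintro (h5 | h5)
        · exact h5
        · exact absurd (mem_star.mp (g1 h5)) he
      · exact Or.inl
    refine ⟨?_, k1, ?_, g4⟩
    · have := attempts_eq σ B (single a b σ t ((single a b σ t)^[i] (h, B))).2 t k1 a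
        (ghost a σ B h i) ht
      show attempts σ (single a b σ t ((single a b σ t)^[i] (h, B))).2 a
        ((single a b σ t)^[i] (h, B)).1 = _
      rw [h1, this]
      rfl
    · show (i + 1) * b ≤ (star t ∩ (((single a b σ t)^[i] (h, B)).2 ∪ _)).card
      rw [g2, Nat.add_mul, Nat.one_mul]
      omega

/-- If Maker does not try `t` in time, she loses. -/
lemma never {a b K : ℕ} (hK : Fintype.card V - 1 ≤ (K + 1) * b) {σ : Hist V → Edge V}
    {c : Finset V → V} {h : Hist V} {B : Finset (Edge V)} {t : V}
    (ht : t ∈ fresh (ghost a σ B h K)) : ¬ Wins a b σ c (h, B, some t) := by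
  intro hw
  obtain ⟨h1, h2, h3, h4⟩ := phase hw K ht
  rw [← h1] at ht
  obtain ⟨g1, g2, g3, g4⟩ := step_facts ht h4
  have := card_star t
  rw [Nat.add_mul, Nat.one_mul] at hK
  omega

/-- If Maker tries `t` in the turn `i`. -/
lemma killed {a b : ℕ} {σ : Hist V → Edge V} {c : Finset V → V} {h : Hist V}
    {B : Finset (Edge V)} {t : V} (hw : Wins a b σ c (h, B, some t)) (i : ℕ)
    (ht : t ∈ fresh (ghost a σ B h i)) (ht' : t ∉ fresh (ghost a σ B h (i + 1))) :
    t ∉ fresh ((single a b σ t)^[i + 1] (h, B)).1 ∧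
      (fresh (ghost a σ B h i)).card ≤
        (fresh ((single a b σ t)^[i + 1] (h, B)).1).card + 2 * a ∧
      fresh ((single a b σ t)^[i + 1] (h, B)).1 ⊆ fresh h ∧
      Wins a b σ c (((single a b σ t)^[i + 1] (h, B)).1,
        ((single a b σ t)^[i + 1] (h, B)).2, none) := by
  obtain ⟨h1, h2, h3, h4⟩ := phase hw i ht
  have ht1 := ht
  rw [← h1] at ht1
  obtain ⟨g1, g2, g3, g4⟩ := step_facts ht1 h4
  rw [Function.iterate_succ_apply']
  have k1 : ∀ e : Edge V, t ∉ e.1 →
      (e ∈ (single a b σ t ((single a b σ t)^[i] (h, B))).2 ↔ e ∈ B) := by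
    intro e he
    simp only [single, Finset.mem_union]
    rw [h2 e he]
    constructor
    · rintro (h5 | h5)
      · exact h5
      · exact absurd (mem_star.mp (g1 h5)) he
    · exact Or.inl
  have k2 : (single a b σ t ((single a b σ t)^[i] (h, B))).1 =
      attempts σ (single a b σ t ((single a b σ t)^[i] (h, B))).2 a (ghost a σ B h i) := by
    rw [← h1]; rfl
  have k3 : t ∉ fresh (single a b σ t ((single a b σ t)^[i] (h, B))).1 := by
    intro hcon
    apply ht'
    rw [k2] at hcon
    have := attempts_eq σ (single a b σ t ((single a b σ t)^[i] (h, B))).2 B t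
      (fun e he => (k1 e he).symm) a (ghost a σ B h i) hcon
    show t ∈ fresh (attempts σ B a (ghost a σ B h i))
    rw [this]
    exact hcon
  refine ⟨k3, ?_, ?_, ?_⟩
  · rw [k2]; exact card_fresh_attempts _ _ _ _
  · rw [k2]
    exact (fresh_attempts_subset _ _ _ _).trans (fresh_ghost a σ B h i)
  · exact wins_congr (by simp [aim, k3]) g4

end Pool.Agent.Q157.PH
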