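import Pool.Agent.Q157.PH.Average

/-!
Randomized strategies of Maker.
-/

namespace Pool.Agent.Q157.PH

open Finset MeasureTheory

variable {V : Type} [Fintype V] [DecidableEq V]

set_option linter.unusedSectionVars false

/-- A randomized strategy of Maker: a deterministic strategy `σ ω` for every point `ω` of a
probability space, depending measurably on `ω`. -/
def IsRandomized {Ω : Type} [MeasurableSpace Ω] (σ : Ω → Hist V → Edge V) : Prop :=
  ∀ (h : Hist V) (e : Edge V), MeasurableSet {ω | σ ω h = e}

variable {Ω : Type} [MeasurableSpace Ω]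

lemma measurable_attempts {σ : Ω → Hist V → Edge V} (hσ : IsRandomized σ) (B : Finset (Edge V))
    (k : ℕ) (h h' : Hist V) : MeasurableSet {ω | attempts (σ ω) B k h = h'} := by
  induction k generalizing h' with
  | zero => simp only [attempts]; exact MeasurableSet.const _
  | succ k ih =>
    cases h' with
    | nil =>
      have : {ω | attempts (σ ω) B (k + 1) h = []} = ∅ := by
        ext ω; simp [attempts]
      rw [this]; exact MeasurableSet.empty
    | cons y h'' =>
      have : {ω | attempts (σ ω) B (k + 1) h = y :: h''} =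
          {ω | attempts (σ ω) B k h = h''} ∩ ({ω | σ ω h'' = y.1} ∩
            {ω | decide (y.1 ∉ B) = y.2}) := by
        ext ω
        simp only [attempts, Set.mem_setOf_eq, Set.mem_inter_iff, List.cons.injEq]
        constructor
        · rintro ⟨h1, h2⟩
          rw [h2] at h1
          refine ⟨h2, congrArg Prod.fst h1, ?_⟩
          rw [← congrArg Prod.snd h1, ← congrArg Prod.fst h1]
        · rintro ⟨h1, h2, h3⟩
          refine ⟨?_, h1⟩
          rw [h1, h2, h3]
      rw [this]
      exact (ih _).inter ((hσ _ _).inter (MeasurableSet.const _))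

lemma measurable_position {σ : Ω → Hist V → Edge V} (hσ : IsRandomized σ) (a : ℕ)
    (β : Hist V → Finset (Edge V)) (j : ℕ) (s : Hist V × Finset (Edge V)) :
    MeasurableSet {ω | position a (σ ω) β j = s} := by
  induction j generalizing s with
  | zero => simp only [position]; exact MeasurableSet.const _
  | succ j ih =>
    have : {ω | position a (σ ω) β (j + 1) = s} =
        ⋃ s₀ : Hist V × Finset (Edge V), {ω | position a (σ ω) β j = s₀} ∩
          ({ω | attempts (σ ω) s₀.2 a s₀.1 = s.1} ∩ {ω | s₀.2 ∪ β s.1 = s.2}) := by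
      ext ω
      simp only [Set.mem_iUnion, Set.mem_inter_iff, Set.mem_setOf_eq, position]
      constructor
      · intro h1
        refine ⟨position a (σ ω) β j, rfl, congrArg Prod.fst h1, ?_⟩
        rw [← congrArg Prod.snd h1, ← congrArg Prod.fst h1]
      · rintro ⟨s₀, rfl, h2, h3⟩
        rw [h2, h3]
    rw [this]
    exact MeasurableSet.iUnion fun s₀ =>
      (ih s₀).inter ((measurable_attempts hσ _ _ _ _).inter (MeasurableSet.const _))

lemma measurable_makerWins {σ : Ω → Hist V → Edge V} (hσ : IsRandomized σ) (a : ℕ)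
    (β : Hist V → Finset (Edge V)) : MeasurableSet {ω | MakerWins a (σ ω) β} := by
  have : {ω | MakerWins a (σ ω) β} = ⋃ j : ℕ, ⋃ s : Hist V × Finset (Edge V),
      {ω | position a (σ ω) β j = s} ∩ {ω | Touched s.1} := by
    ext ω
    simp only [Set.mem_iUnion, Set.mem_inter_iff, Set.mem_setOf_eq, MakerWins]
    constructor
    · rintro ⟨j, hj⟩
      exact ⟨j, _, rfl, hj⟩
    · rintro ⟨j, s, rfl, hs⟩
      exact ⟨j, hs⟩
  rw [this]
  exact MeasurableSet.iUnion fun j => MeasurableSet.iUnion fun s =>
    (measurable_position hσ a β j s).inter (MeasurableSet.const _)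

/-- The general bound for the probability that Maker wins. -/
theorem exists_breaker [Nonempty V] {a b K : ℕ} (ha : 1 ≤ a)
    (hK : Fintype.card V - 1 ≤ (K + 1) * b)
    (Φ : ℕ → ℝ) (hanti : Antitone Φ) (h0 : ∀ r, 0 ≤ Φ r)
    (hΦ : ∀ r, 1 ≤ Φ r ∨ (0 < r ∧ ∑ j ∈ range (2 * a * K), Φ (r - j - 2 * a) ≤ r * Φ r))
    (μ : Measure Ω) [IsProbabilityMeasure μ] {σ : Ω → Hist V → Edge V} (hσ : IsRandomized σ) :
    ∃ β : Hist V → Finset (Edge V), IsBreaker a b β ∧
      μ.real {ω | MakerWins a (σ ω) β} ≤ Φ (Fintype.card V - 2 * a) := by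
  classical
  have hpt : ∀ ω, ∑ c ∈ (seeds : Finset (Finset V → V)),
      Set.indicator {ω | MakerWins a (σ ω) (strat a b c)} (fun _ => (1 : ℝ)) ω ≤
      Φ (Fintype.card V - 2 * a) * (seeds : Finset (Finset V → V)).card := by
    intro ω
    have h1 : ∑ c ∈ (seeds : Finset (Finset V → V)),
        Set.indicator {ω | MakerWins a (σ ω) (strat a b c)} (fun _ => (1 : ℝ)) ω =
        ((seeds.filter (fun c : Finset V → V => MakerWins a (σ ω) (strat a b c))).card : ℝ) := by
      rw [Finset.card_filter]
      push_cast
      apply Finset.sum_congr rfl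
      intro c _
      simp [Set.indicator_apply]
    rw [h1]
    have h2 : (seeds.filter (fun c : Finset V → V => MakerWins a (σ ω) (strat a b c))).card ≤
        cnt a b (σ ω) (attempts (σ ω) ∅ a []) ∅ := by
      unfold cnt
      apply Finset.card_le_card
      intro c hc
      rw [Finset.mem_filter] at hc ⊢
      exact ⟨hc.1, wins_of_makerWins ha hc.2⟩
    calc _ ≤ (cnt a b (σ ω) (attempts (σ ω) ∅ a []) ∅ : ℝ) := by exact_mod_cast h2
      _ ≤ _ := cnt_le hK (σ ω) Φ hanti h0 hΦ _ _
      _ ≤ _ := by
        apply mul_le_mul_of_nonneg_right _ (Nat.cast_nonneg _)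
        apply hanti
        have h3 := card_fresh_attempts (σ ω) ∅ a []
        have h4 : (fresh ([] : Hist V)).card = Fintype.card V := by
          simp [fresh]
        omega
  have hint : ∑ c ∈ (seeds : Finset (Finset V → V)),
      μ.real {ω | MakerWins a (σ ω) (strat a b c)} ≤
      ∑ c ∈ (seeds : Finset (Finset V → V)), Φ (Fintype.card V - 2 * a) := by
    have h1 : ∀ c : Finset V → V, μ.real {ω | MakerWins a (σ ω) (strat a b c)} =
        ∫ ω, Set.indicator {ω | MakerWins a (σ ω) (strat a b c)} (fun _ => (1 : ℝ)) ω ∂μ := by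
      intro c
      rw [integral_indicator (measurable_makerWins hσ a _)]
      simp
    have h2 : ∀ c ∈ (seeds : Finset (Finset V → V)), Integrable
        (fun ω => Set.indicator {ω | MakerWins a (σ ω) (strat a b c)} (fun _ => (1 : ℝ)) ω) μ := by
      intro c _
      exact (integrable_const (1 : ℝ)).indicator (measurable_makerWins hσ a _)
    rw [Finset.sum_congr rfl (fun c _ => h1 c), ← integral_finset_sum _ h2]
    calc _ ≤ ∫ _, Φ (Fintype.card V - 2 * a) * (seeds : Finset (Finset V → V)).card ∂μ := by
          apply integral_mono (integrable_finset_sum _ h2) (integrable_const _)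
          exact hpt
      _ = _ := by
          rw [integral_const, Finset.sum_const]
          simp [mul_comm]
  obtain ⟨c, -, hc⟩ := Finset.exists_le_of_sum_le (seeds_nonempty (V := V)) hint
  exact ⟨strat a b c, isBreaker_strat a b ha c, hc⟩

end Pool.Agent.Q157.PH
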